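import Pool.Agent.MP_94fa45_ag.Mg.C73_ZF

open CategoryTheory Limits TopologicalSpace Topology CB

/-- Hyperbolic restriction of the IC complex of a Coulomb branch: only constant coefficients. -/
theorem Pool.Agent.Results.MP_94fa45_ag.Constant.result
    (ι : Type) [Fintype ι] [DecidableEq ι] (ar : ι → ι → ℕ) (har : ∀ j, ar j j = 0) (v fr : ι → ℕ)
    (i : ι) (m : ι → ℤ) (hi : m i = 0) (hm : ∀ j, j ≠ i → m j < 0) (ε : ℤˣ) :
    let A := Cb (Sigma.fst : (Σ j, Fin (v j)) → ι) ar fr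
    let χ : ℂˣ → A → A := act fun a => ε * m a.1
    let M : TopCat := Pt A
    let leaf : M → M → Prop := Leaf brC
    let ic : DP M := IC M (rk brC)
    let F : Set M := Fix χ
    let lim : M → M → Prop := Lim χ
    let M₁ : ℕ → ℕ → TopCat := fun N k => Pt (A1 N k)
    let leaf₁ : ∀ N k, M₁ N k → M₁ N k → Prop := fun _ _ => Leaf brC
    let ic₁ : ∀ N k, DP (M₁ N k) := fun N k => IC (M₁ N k) (rk brC)
    ∃ (Z : Closeds M) (p : C(sub (Z : Set M), sub F)),
      (∀ x, x ∈ Z ↔ ∃ y, lim x y) ∧ (∀ x, lim ((inc (Z : Set M)).toFun x) ((inc F).toFun (p.toFun x))) ∧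
      ∀ (N k : ℕ) (φ : C(M₁ N k, sub F)), IsHomeomorph φ.toFun →
        (∀ x y, leaf₁ N k x y ↔ leaf ((inc F).toFun (φ.toFun x)) ((inc F).toFun (φ.toFun y))) →
        ∃ e : ∀ c : Fin (min k (N / 2) + 1), C(M₁ (N - 2 * c) (k - c), M₁ N k),
          (∀ c, IsClosedEmbedding (e c).toFun ∧
            (∀ x y, leaf₁ _ _ x y ↔ leaf₁ N k ((e c).toFun x) ((e c).toFun y)) ∧
            ∃ z, Set.range (e c).toFun = closure {y | leaf₁ N k z y}) ∧
          ∃ mult : Fin (min k (N / 2) + 1) → ℕ, Nonempty ((Rpush p).obj ((Rshriek Z).obj ic) ≅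
            ∐ fun j : Σ c, Fin (mult c) => (Rpush (φ.comp (e j.1))).obj (ic₁ _ _)) :=
  C73.mainB ι ar har v fr i m hi hm ε
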